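import Pool.Agent.Helper8.UL.Base2

open Set

namespace Pool.UL

theorem n2_thm : S_N2 := by
  intro E Δ p q u HA HX HC HZ XA XA' XC XC' κA κX κC κZ hΔ hpq hpu hqu tA tX tC tZ qA qX pC pZ
    dA0 dX0 dC0 huu hup huq hnb gA gX gC gZ
  obtain ⟨UA, aA, cA, dA, eA, VA, lA, hA, rlA, rhA, iaA, ocA, idA, oeA, midA⟩ := gA
  obtain ⟨WX, buX, bpX, tpX, tuX, lX, hX, rlX, rhX, ibpX, ibuX, otpX, otuX, fX, kX⟩ := gX
  obtain ⟨UC, aC, cC, dC, eC, VC, lC, hC, rlC, rhC, iaC, ocC, idC, oeC, midC⟩ := gC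
  obtain ⟨WZ, buZ, bqZ, tqZ, tuZ, lZ, hZ, rlZ, rhZ, ibqZ, ibuZ, otqZ, otuZ, fZ, kZ⟩ := gZ
  have dAX : ∀ v ∈ HA, v ∉ HX := fun v h => (dA0 v h).1
  have dAC : ∀ v ∈ HA, v ∉ HC := fun v h => (dA0 v h).2.1
  have dAZ : ∀ v ∈ HA, v ∉ HZ := fun v h => (dA0 v h).2.2
  have dXC : ∀ v ∈ HX, v ∉ HC := fun v h => (dX0 v h).1
  have dXZ : ∀ v ∈ HX, v ∉ HZ := fun v h => (dX0 v h).2
  -- the optional edges
  set pu := opt E p u with hpu'
  set qu := opt E q u with hqu'
  have opu := out_opt E p u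
  have ipu := inn_opt E p u
  have oqu := out_opt E q u
  have iqu := inn_opt E q u
  rw [← hpu'] at opu ipu
  rw [← hqu'] at oqu iqu
  -- out-edges of p, of q, in-edges of u
  have Op : Out E p {v | v ∈ {v | v ∈ HX ∨ v ∈ {v | v = u}} ∨ v ∈ HA} (tpX ++ pu ++ cA) := by
    refine (otpX.append opu ?_).append ocA ?_
    · rintro v h1 (rfl : v = u)
      exact tX.2.1 h1
    · rintro v (h | h) h2
      · exact dAX v h2 h
      · have h' : v = u := h
        subst h'
        exact tA.2.1 h2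
  have Oq : Out E q {v | v ∈ {v | v ∈ HZ ∨ v ∈ HC} ∨ v ∈ {v | v = u}} (tqZ ++ cC ++ qu) := by
    refine (otqZ.append ocC (fun v h1 h2 => dC0 v h2 h1)).append oqu ?_
    rintro v (h | h) (rfl : v = u)
    · exact tZ.2.1 h
    · exact tC.2.1 h
  have Iu : Inn E {v | v ∈ {v | v ∈ {v | v ∈ {v | v ∈ {v | v ∈ HZ ∨ v ∈ HX} ∨ v ∈ {v | v = p}} ∨
      v ∈ HA} ∨ v ∈ HC} ∨ v ∈ {v | v = q}} u (buZ ++ buX ++ pu ++ dA ++ dC ++ qu) := by
    refine ((((ibuZ.append ibuX (fun v h1 h2 => dXZ v h2 h1)).append ipu ?_).append idA ?_).append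
      idC ?_).append iqu ?_
    · rintro v (h | h) (rfl : v = p)
      · exact pZ h
      · exact tX.1 h
    · rintro v ((h | h) | h) h2
      · exact dAZ v h2 h
      · exact dAX v h2 h
      · have h' : v = p := h
        subst h'
        exact tA.1 h2
    · rintro v (((h | h) | h) | h) h2
      · exact dC0 v h2 h
      · exact dXC v h h2
      · have h' : v = p := h
        subst h'
        exact pC h2
      · exact dAC v h h2
    · rintro v ((((h | h) | h) | h) | h) h2
      · have h' : v = q := h2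
        subst h'
        exact tZ.1 h
      · have h' : v = q := h2
        subst h'
        exact qX h
      · have h' : v = q := h2
        have h'' : v = p := h
        exact hpq (h''.symm.trans h')
      · have h' : v = q := h2
        subst h'
        exact qA h
      · have h' : v = q := h2
        subst h'
        exact tC.1 h
  have Ou : Out E u {v | v ∈ {v | v ∈ {v | v ∈ HZ ∨ v ∈ HX} ∨ v ∈ HC} ∨ v ∈ HA}
      (tuZ ++ tuX ++ eC ++ eA) := by
    refine ((otuZ.append otuX (fun v h1 h2 => dXZ v h2 h1)).append oeC ?_).append oeA ?_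
    · rintro v (h | h) h2
      · exact dC0 v h2 h
      · exact dXC v h h2
    · rintro v ((h | h) | h) h2
      · exact dAZ v h2 h
      · exact dAX v h2 h
      · exact dAC v h2 h
  have okE : OKE E (Ev.vert u (buZ ++ buX ++ pu ++ dA ++ dC ++ qu) (tuZ ++ tuX ++ eC ++ eA)) := by
    refine oke_vert Iu Ou ?_ ?_
    · intro v hv
      simp only [mem_ofPred_eq]
      have := hnb v (Or.inr hv)
      tauto
    · intro v hv
      simp only [mem_ofPred_eq]
      have h1 := hnb v (Or.inl hv)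
      have h2 : v ≠ p := fun h => hup (h ▸ hv)
      have h3 : v ≠ q := fun h => huq (h ▸ hv)
      tauto
  have lp := Op.length_le hΔ
  have lq := Oq.length_le hΔ
  have lu := Iu.length_le hΔ
  have lo := Ou.length_le hΔ
  simp only [List.length_append] at lp lq lu lo
  obtain ⟨mC, rmC, fC, kC⟩ := midC (tpX ++ pu ++ cA ++ tqZ) qu
    (by simp only [List.length_append]; omega) (by omega)
  obtain ⟨mA, rmA, fA, kA⟩ := midA (tpX ++ pu ++ tqZ) (dC ++ qu)
    (by simp only [List.length_append]; omega) (by simp only [List.length_append]; omega)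
  refine ⟨WX ++ WZ ++ buZ ++ buX ++ UA ++ UC, aC ++ bqZ, aA ++ bpX, tpX ++ pu ++ cA,
    tqZ ++ cC ++ qu,
    lX ++ lZ ++ [Ev.swap bqZ buX] ++ lA ++ lC ++ [Ev.swap aA bqZ],
    mC ++ [Ev.swap cA tqZ] ++ mA ++ [Ev.swap pu tqZ] ++ [Ev.swap (buZ ++ buX) (tpX ++ tqZ)] ++
      [Ev.vert u (buZ ++ buX ++ pu ++ dA ++ dC ++ qu) (tuZ ++ tuX ++ eC ++ eA)] ++ hA ++ hC ++
      [Ev.swap tpX (tqZ ++ tuZ)] ++ hZ ++ hX, ?_, ?_, ?_, ?_, ?_, ?_, ?_, ?_⟩
  · have g1 : Run (WX ++ buX ++ bpX) lZ (WX ++ WZ ++ buZ ++ bqZ ++ buX ++ bpX) :=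
      (rlZ.insert WX (buX ++ bpX)).cast (by simp) (by simp)
    have g2 : Run (WX ++ WZ ++ buZ ++ bqZ ++ buX ++ bpX) [Ev.swap bqZ buX]
        (WX ++ WZ ++ buZ ++ buX ++ bqZ ++ bpX) :=
      (Run.swap1 (WX ++ WZ ++ buZ) bqZ buX bpX).cast (by simp) (by simp)
    have g3 : Run (WX ++ WZ ++ buZ ++ buX ++ bqZ ++ bpX) lA
        (WX ++ WZ ++ buZ ++ buX ++ UA ++ aA ++ bqZ ++ bpX) :=
      (rlA.insert (WX ++ WZ ++ buZ ++ buX) (bqZ ++ bpX)).cast (by simp) (by simp)
    have g4 : Run (WX ++ WZ ++ buZ ++ buX ++ UA ++ aA ++ bqZ ++ bpX) lC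
        (WX ++ WZ ++ buZ ++ buX ++ UA ++ UC ++ aC ++ aA ++ bqZ ++ bpX) :=
      (rlC.insert (WX ++ WZ ++ buZ ++ buX ++ UA) (aA ++ bqZ ++ bpX)).cast (by simp) (by simp)
    have g5 : Run (WX ++ WZ ++ buZ ++ buX ++ UA ++ UC ++ aC ++ aA ++ bqZ ++ bpX)
        [Ev.swap aA bqZ] (WX ++ WZ ++ buZ ++ buX ++ UA ++ UC ++ (aC ++ bqZ) ++ (aA ++ bpX)) :=
      (Run.swap1 (WX ++ WZ ++ buZ ++ buX ++ UA ++ UC ++ aC) aA bqZ bpX).cast (by simp) (by simp)
    exact ((((rlX.append g1).append g2).append g3).append g4).append g5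
  · have g1 : Run (WX ++ WZ ++ buZ ++ buX ++ UA ++ UC ++ (tpX ++ pu ++ cA) ++ (tqZ ++ cC ++ qu)) mC
        (WX ++ WZ ++ buZ ++ buX ++ UA ++ tpX ++ pu ++ cA ++ tqZ ++ dC ++ qu ++ VC) :=
      (rmC.context (WX ++ WZ ++ buZ ++ buX ++ UA) []).cast (by simp) (by simp)
    have g2 : Run (WX ++ WZ ++ buZ ++ buX ++ UA ++ tpX ++ pu ++ cA ++ tqZ ++ dC ++ qu ++ VC)
        [Ev.swap cA tqZ]
        (WX ++ WZ ++ buZ ++ buX ++ UA ++ tpX ++ pu ++ tqZ ++ cA ++ dC ++ qu ++ VC) :=
      (Run.swap1 (WX ++ WZ ++ buZ ++ buX ++ UA ++ tpX ++ pu) cA tqZ (dC ++ qu ++ VC)).cast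
        (by simp) (by simp)
    have g3 : Run (WX ++ WZ ++ buZ ++ buX ++ UA ++ tpX ++ pu ++ tqZ ++ cA ++ dC ++ qu ++ VC) mA
        (WX ++ WZ ++ buZ ++ buX ++ tpX ++ pu ++ tqZ ++ dA ++ dC ++ qu ++ VA ++ VC) :=
      (rmA.context (WX ++ WZ ++ buZ ++ buX) VC).cast (by simp) (by simp)
    have g4 : Run (WX ++ WZ ++ buZ ++ buX ++ tpX ++ pu ++ tqZ ++ dA ++ dC ++ qu ++ VA ++ VC)
        [Ev.swap pu tqZ]
        (WX ++ WZ ++ buZ ++ buX ++ tpX ++ tqZ ++ pu ++ dA ++ dC ++ qu ++ VA ++ VC) :=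
      (Run.swap1 (WX ++ WZ ++ buZ ++ buX ++ tpX) pu tqZ (dA ++ dC ++ qu ++ VA ++ VC)).cast
        (by simp) (by simp)
    have g5 : Run (WX ++ WZ ++ buZ ++ buX ++ tpX ++ tqZ ++ pu ++ dA ++ dC ++ qu ++ VA ++ VC)
        [Ev.swap (buZ ++ buX) (tpX ++ tqZ)]
        (WX ++ WZ ++ tpX ++ tqZ ++ buZ ++ buX ++ pu ++ dA ++ dC ++ qu ++ VA ++ VC) :=
      (Run.swap1 (WX ++ WZ) (buZ ++ buX) (tpX ++ tqZ) (pu ++ dA ++ dC ++ qu ++ VA ++ VC)).cast
        (by simp) (by simp)
    have g6 : Run (WX ++ WZ ++ tpX ++ tqZ ++ buZ ++ buX ++ pu ++ dA ++ dC ++ qu ++ VA ++ VC)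
        [Ev.vert u (buZ ++ buX ++ pu ++ dA ++ dC ++ qu) (tuZ ++ tuX ++ eC ++ eA)]
        (WX ++ WZ ++ tpX ++ tqZ ++ tuZ ++ tuX ++ eC ++ eA ++ VA ++ VC) :=
      (Run.vert1 (WX ++ WZ ++ tpX ++ tqZ) (buZ ++ buX ++ pu ++ dA ++ dC ++ qu) u
        (tuZ ++ tuX ++ eC ++ eA) (VA ++ VC)).cast (by simp) (by simp)
    have g7 : Run (WX ++ WZ ++ tpX ++ tqZ ++ tuZ ++ tuX ++ eC ++ eA ++ VA ++ VC) hA
        (WX ++ WZ ++ tpX ++ tqZ ++ tuZ ++ tuX ++ eC ++ VC) :=
      (rhA.remove (WX ++ WZ ++ tpX ++ tqZ ++ tuZ ++ tuX ++ eC) VC).cast (by simp) (by simp)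
    have g8 : Run (WX ++ WZ ++ tpX ++ tqZ ++ tuZ ++ tuX ++ eC ++ VC) hC
        (WX ++ WZ ++ tpX ++ tqZ ++ tuZ ++ tuX) :=
      (rhC.remove (WX ++ WZ ++ tpX ++ tqZ ++ tuZ ++ tuX) []).cast (by simp) (by simp)
    have g9 : Run (WX ++ WZ ++ tpX ++ tqZ ++ tuZ ++ tuX) [Ev.swap tpX (tqZ ++ tuZ)]
        (WX ++ WZ ++ tqZ ++ tuZ ++ tpX ++ tuX) :=
      (Run.swap1 (WX ++ WZ) tpX (tqZ ++ tuZ) tuX).cast (by simp) (by simp)
    have g10 : Run (WX ++ WZ ++ tqZ ++ tuZ ++ tpX ++ tuX) hZ (WX ++ tpX ++ tuX) :=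
      (rhZ.remove WX (tpX ++ tuX)).cast (by simp) (by simp)
    exact (((((((((g1.append g2).append g3).append g4).append g5).append g6).append g7).append
      g8).append g9).append g10).append rhX
  · refine (iaA.append ibpX dAX).congr ?_
    intro v hv
    simp only [mem_ofPred_eq]
    constructor
    · rintro (h | h)
      · exact Or.inl h
      · exact Or.inr (Or.inl h)
    · rintro (h | h | h | h | h)
      · exact Or.inl h
      · exact Or.inr h
      · rcases tC.2.2 v h p (Or.inl hv) with h' | h' | h'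
        · exact absurd h' pC
        · exact absurd h' hpq
        · exact absurd h' hpu
      · rcases tZ.2.2 v h p (Or.inl hv) with h' | h' | h'
        · exact absurd h' pZ
        · exact absurd h' hpq
        · exact absurd h' hpu
      · rw [h] at hv; exact absurd hv hup
  · refine (iaC.append ibqZ dC0).congr ?_
    intro v hv
    simp only [mem_ofPred_eq]
    constructor
    · rintro (h | h)
      · exact Or.inr (Or.inr (Or.inl h))
      · exact Or.inr (Or.inr (Or.inr (Or.inl h)))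
    · rintro (h | h | h | h | h)
      · rcases tA.2.2 v h q (Or.inl hv) with h' | h' | h'
        · exact absurd h' qA
        · exact absurd h'.symm hpq
        · exact absurd h' hqu
      · rcases tX.2.2 v h q (Or.inl hv) with h' | h' | h'
        · exact absurd h' qX
        · exact absurd h'.symm hpq
        · exact absurd h' hqu
      · exact Or.inl h
      · exact Or.inr h
      · rw [h] at hv; exact absurd hv huq
  · refine Op.congr ?_
    intro v hv
    simp only [mem_ofPred_eq]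
    constructor
    · rintro ((h | h) | h)
      · exact Or.inr (Or.inl h)
      · exact Or.inr (Or.inr (Or.inr (Or.inr h)))
      · exact Or.inl h
    · rintro (h | h | h | h | h)
      · exact Or.inr h
      · exact Or.inl (Or.inl h)
      · rcases tC.2.2 v h p (Or.inr hv) with h' | h' | h'
        · exact absurd h' pC
        · exact absurd h' hpq
        · exact absurd h' hpu
      · rcases tZ.2.2 v h p (Or.inr hv) with h' | h' | h'
        · exact absurd h' pZ
        · exact absurd h' hpq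
        · exact absurd h' hpu
      · exact Or.inl (Or.inr h)
  · refine Oq.congr ?_
    intro v hv
    simp only [mem_ofPred_eq]
    constructor
    · rintro ((h | h) | h)
      · exact Or.inr (Or.inr (Or.inr (Or.inl h)))
      · exact Or.inr (Or.inr (Or.inl h))
      · exact Or.inr (Or.inr (Or.inr (Or.inr h)))
    · rintro (h | h | h | h | h)
      · rcases tA.2.2 v h q (Or.inr hv) with h' | h' | h'
        · exact absurd h' qA
        · exact absurd h'.symm hpq
        · exact absurd h' hqu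
      · rcases tX.2.2 v h q (Or.inr hv) with h' | h' | h'
        · exact absurd h' qX
        · exact absurd h'.symm hpq
        · exact absurd h' hqu
      · exact Or.inl (Or.inr h)
      · exact Or.inl (Or.inl h)
      · exact Or.inr h
  · have f1 := ((((((((((fA.append fX dAX).append fC ?_).append fZ ?_).swap bqZ buX).swap aA
      bqZ).swap cA tqZ).swap pu tqZ).swap (buZ ++ buX) (tpX ++ tqZ)).swap tpX
      (tqZ ++ tuZ)).vert (w := u) ?_ okE)
    · refine (f1.perm ?_).congr ?_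
      · classical
        rw [List.perm_iff_count]
        intro ev
        simp only [List.count_append]
        omega
      · intro v
        simp only [mem_ofPred_eq]
        tauto
    · rintro v (h | h)
      · exact dAC v h
      · exact dXC v h
    · rintro v ((h | h) | h)
      · exact dAZ v h
      · exact dXZ v h
      · exact dC0 v h
    · rintro (((h | h) | h) | h)
      · exact tA.2.1 h
      · exact tX.2.1 h
      · exact tC.2.1 h
      · exact tZ.2.1 h
  · intro x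
    have k1 := kA x
    have k2 := kC x
    have k3 := kX x
    have k4 := kZ x
    have c1 := ibqZ.count_le (p := p) (q := q) (w := u) (Or.inr (Or.inl rfl)) x
    have c2 := ibuX.count_le (p := p) (q := q) (w := u) (Or.inr (Or.inr rfl)) x
    have c3 := iaA.count_le (p := p) (q := q) (w := u) (Or.inl rfl) x
    have c4 := ocA.count_le (p := p) (q := q) (w := u) (Or.inl rfl) x
    have c5 := otqZ.count_le (p := p) (q := q) (w := u) (Or.inr (Or.inl rfl)) x
    have c6 := opu.count_le (p := p) (q := q) (w := u) (Or.inl rfl) x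
    have c7 := ibuZ.count_le (p := p) (q := q) (w := u) (Or.inr (Or.inr rfl)) x
    have c8 := otpX.count_le (p := p) (q := q) (w := u) (Or.inl rfl) x
    have c9 := otuZ.count_le (p := p) (q := q) (w := u) (Or.inr (Or.inr rfl)) x
    have c10 := idC.count_le (p := p) (q := q) (w := u) (Or.inr (Or.inr rfl)) x
    have c11 := oqu.count_le (p := p) (q := q) (w := u) (Or.inr (Or.inl rfl)) x
    have l1 := ibqZ.length_le hΔ
    have l2 := iaA.length_le hΔ
    have s1 := cost_swap (A := bqZ) (B := buX) (m := Δ) (n := Δ) l1 (by omega) x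
    have s2 := cost_swap (A := aA) (B := bqZ) (m := Δ) (n := Δ) l2 l1 x
    have s3 := cost_swap (A := cA) (B := tqZ) (m := Δ) (n := Δ) (by omega) (by omega) x
    have s4 := cost_swap (A := pu) (B := tqZ) (m := Δ) (n := Δ) (by omega) (by omega) x
    have s5 := cost_swap (A := buZ ++ buX) (B := tpX ++ tqZ) (m := 2 * Δ) (n := 2 * Δ)
      (by simp only [List.length_append]; omega) (by simp only [List.length_append]; omega) x
    have s6 := cost_swap (A := tpX) (B := tqZ ++ tuZ) (m := Δ) (n := 2 * Δ)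
      (by omega) (by simp only [List.length_append]; omega) x
    simp only [cr_append, cr_cons, cr_nil, crE_vert, add_zero, List.count_append] at k1 k2 k3 k4 s1 s2 s3 s4 s5 s6 ⊢
    generalize ind3 p q u x.1 + ind3 p q u x.2 = i at *
    have m : ∀ (K c : ℕ), c ≤ i → K * c ≤ K * i := fun K c h => Nat.mul_le_mul_left K h
    have m' : ∀ (K c : ℕ) (j : ℕ), c ≤ j * i → K * c ≤ j * (K * i) := fun K c j h => by
      calc K * c ≤ K * (j * i) := Nat.mul_le_mul_left K h
        _ = j * (K * i) := by ring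
    have a1 := m Δ _ c1
    have a2 := m Δ _ c2
    have a3 := m Δ _ c3
    have a4 := m Δ _ c4
    have a5 := m Δ _ c5
    have a6 := m Δ _ c6
    have b1 := m' XA (tpX.count x + pu.count x + tqZ.count x) 3 (by omega)
    have b2 := m' XA' (dC.count x + qu.count x) 2 (by omega)
    have b3 := m' XC (tpX.count x + pu.count x + cA.count x + tqZ.count x) 4 (by omega)
    have b4 := m XC' (qu.count x) c11
    have b5 := m' Δ (buZ.count x + buX.count x) 2 (by omega)
    have b6 := m' Δ (tpX.count x + tqZ.count x) 2 (by omega)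
    have b7 := m Δ _ c8
    have b8 := m' Δ (tqZ.count x + tuZ.count x) 2 (by omega)
    rw [show 2 * Δ * (buZ.count x + buX.count x) = 2 * (Δ * (buZ.count x + buX.count x)) by ring,
      show 2 * Δ * (tpX.count x + tqZ.count x) = 2 * (Δ * (tpX.count x + tqZ.count x)) by ring] at s5
    rw [show 2 * Δ * tpX.count x = 2 * (Δ * tpX.count x) by ring] at s6
    rw [show i * (100 * Δ + 10 * (XA + XA' + XC + XC')) = 100 * (Δ * i) + 10 * (XA * i) +
      10 * (XA' * i) + 10 * (XC * i) + 10 * (XC' * i) by ring]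
    omega

end Pool.UL
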