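import Pool.Agent.Helper8.UL.Base2

open Set

namespace Pool.UL

theorem root_thm : S_ROOT := by
  intro E Δ p q HM HB X X' κM κB hΔ hpq hAM hAB hdis hpp hqq hqp hnp hnq hM hB
  obtain ⟨U, a, c, d, e, V, el, eh, rl, rh, ia, oc, id', oe, hmid⟩ := hM
  obtain ⟨W, bq, bp, tp, tq, ml, mh, sl, sh, ibp, ibq, otp, otq, fB, cB⟩ := hB
  have opq := out_opt E p q
  have ipq := inn_opt E p q
  have otc := otp.append oc (fun v h1 h2 => hdis v h2 h1)
  have idp := id'.append ipq (fun v h1 h2 => hAM.1 (by
    have h2' : v = p := h2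
    rwa [h2'] at h1))
  have l1 := otc.length_le hΔ
  have l2 := idp.length_le hΔ
  rw [List.length_append] at l1 l2
  obtain ⟨em, rm, fM, cM⟩ := hmid tp (opt E p q) (by omega) (by omega)
  refine ⟨ml ++ el ++ [Ev.vert p (a ++ bp) (tp ++ c ++ opt E p q)] ++ em ++ [Ev.swap bq tp] ++
    [Ev.vert q (bq ++ d ++ opt E p q) (tq ++ e)] ++ eh ++ mh, ?_, ?_, ?_⟩
  · have g1 : Run (W ++ bq ++ bp) el (W ++ bq ++ U ++ a ++ bp) :=
      (rl.insert (W ++ bq) bp).cast (by simp) (by simp)
    have g2 : Run (W ++ bq ++ U ++ a ++ bp) [Ev.vert p (a ++ bp) (tp ++ c ++ opt E p q)]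
        (W ++ bq ++ U ++ tp ++ c ++ opt E p q) :=
      (Run.vert1 (W ++ bq ++ U) (a ++ bp) p (tp ++ c ++ opt E p q) []).cast (by simp) (by simp)
    have g3 : Run (W ++ bq ++ U ++ tp ++ c ++ opt E p q) em
        (W ++ bq ++ tp ++ d ++ opt E p q ++ V) :=
      (rm.context (W ++ bq) []).cast (by simp) (by simp)
    have g4 : Run (W ++ bq ++ tp ++ d ++ opt E p q ++ V) [Ev.swap bq tp]
        (W ++ tp ++ bq ++ d ++ opt E p q ++ V) :=
      (Run.swap1 W bq tp (d ++ opt E p q ++ V)).cast (by simp) (by simp)
    have g5 : Run (W ++ tp ++ bq ++ d ++ opt E p q ++ V)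
        [Ev.vert q (bq ++ d ++ opt E p q) (tq ++ e)] (W ++ tp ++ tq ++ e ++ V) :=
      (Run.vert1 (W ++ tp) (bq ++ d ++ opt E p q) q (tq ++ e) V).cast (by simp) (by simp)
    have g6 : Run (W ++ tp ++ tq ++ e ++ V) eh (W ++ tp ++ tq) :=
      (rh.remove (W ++ tp ++ tq) []).cast (by simp) (by simp)
    exact ((((((sl.append g1).append g2).append g3).append g4).append g5).append g6).append sh
  · have okp : OKE E (Ev.vert p (a ++ bp) (tp ++ c ++ opt E p q)) := by
      refine oke_vert (ia.append ibp hdis) (otc.append opq ?_) ?_ ?_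
      · intro v hv hv2
        have hv2' : v = q := hv2
        subst hv2'
        rcases hv with h | h
        · exact hAB.2.1 h
        · exact hAM.2.1 h
      · intro v hv
        rcases hnp v (Or.inr hv) with h | h | h
        · exact Or.inl h
        · exact Or.inr h
        · rw [h] at hv; exact absurd hv hqp
      · intro v hv
        rcases hnp v (Or.inl hv) with h | h | h
        · exact Or.inl (Or.inr h)
        · exact Or.inl (Or.inl h)
        · exact Or.inr h
    have okq : OKE E (Ev.vert q (bq ++ d ++ opt E p q) (tq ++ e)) := by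
      refine oke_vert ((ibq.append id' (fun v h1 h2 => hdis v h2 h1)).append ipq ?_)
        (otq.append oe (fun v h1 h2 => hdis v h2 h1)) ?_ ?_
      · intro v hv hv2
        have hv2' : v = p := hv2
        subst hv2'
        rcases hv with h | h
        · exact hAB.1 h
        · exact hAM.1 h
      · intro v hv
        rcases hnq v (Or.inr hv) with h | h | h
        · exact Or.inl (Or.inr h)
        · exact Or.inl (Or.inl h)
        · exact Or.inr h
      · intro v hv
        rcases hnq v (Or.inl hv) with h | h | h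
        · exact Or.inr h
        · exact Or.inl h
        · rw [h] at hv; exact absurd hv hqp
    have f1 := (((fM.append fB hdis).swap bq tp).vert (w := p) (by
      rintro (h | h)
      · exact hAM.1 h
      · exact hAB.1 h) okp).vert (w := q) (by
      rintro ((h | h) | h)
      · exact hAM.2.1 h
      · exact hAB.2.1 h
      · exact hpq h.symm) okq
    refine (f1.perm ?_).congr ?_
    · classical
      rw [List.perm_iff_count]
      intro ev
      simp only [List.count_append]
      omega
    · intro v
      simp only [mem_ofPred_eq]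
      tauto
  · intro x
    have k1 := cM x
    have k2 := cB x
    have l3 := ibq.length_le hΔ
    have l4 := otp.length_le hΔ
    have k3 := cost_swap l3 l4 x
    have n1 := List.nodup_iff_count_le_one.1 otp.1 x
    have n2 := List.nodup_iff_count_le_one.1 opq.1 x
    have n3 := List.nodup_iff_count_le_one.1 ibq.1 x
    have m1 : X * tp.count x ≤ X := by nlinarith
    have m2 : X' * (opt E p q).count x ≤ X' := by nlinarith
    have m3 : Δ * bq.count x ≤ Δ := by nlinarith
    have m4 : Δ * tp.count x ≤ Δ := by nlinarith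
    simp only [cr_append, cr_cons, cr_nil, crE_vert, add_zero] at k1 k2 k3 ⊢
    omega

end Pool.UL
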